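import Mathlib
import Pool.Agent.U73.LC.Stm

set_option autoImplicit false

/-!
# Project LC, package FREG: the pairs with given ratio in a region (helper103)
-/

namespace Pool.Agent.U103.LC

open Finset Filter Topology
open Pool.Agent.U73.LR Pool.Agent.U73.LS Pool.Agent.U73.LC

theorem lim_of_approx (u : ℝ → ℝ) (g : ℕ → ℝ → ℝ) (d η : ℕ → ℝ) (D : ℝ)
    (hg : ∀ z, Tendsto (g z) atTop (𝓝 (d z))) (hη : Tendsto η atTop (𝓝 0))
    (hd : Tendsto d atTop (𝓝 D))
    (h : ∀ᶠ z in atTop, ∀ᶠ X : ℝ in atTop, |u X - g z X| ≤ η z) : Tendsto u atTop (𝓝 D) := by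
  rw [Metric.tendsto_nhds]
  intro ε hε
  have h2 : ∀ᶠ z in atTop, η z < ε / 3 := hη.eventually_lt_const (by linarith)
  have h3 := (Metric.tendsto_nhds.1 hd) (ε / 3) (by linarith)
  obtain ⟨z, g1, g2, g3⟩ := (h.and (h2.and h3)).exists
  have h4 := (Metric.tendsto_nhds.1 (hg z)) (ε / 3) (by linarith)
  filter_upwards [g1, h4] with X hX hX'
  rw [Real.dist_eq] at g3 hX' ⊢
  have k1 := abs_sub_le (u X) (g z X) D
  have k2 := abs_sub_le (g z X) (d z) D
  linarith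

theorem t_FREG : S_FREG := by
  classical
  intro F R α hR n D hn hD
  obtain ⟨Q, hQ⟩ : ∃ Q : ℕ → ℤ → ℤ → Prop, Q = fun z a b => ∀ p ∈ Nat.primesBelow z,
    F.L p (n.factorization p) a b := ⟨_, rfl⟩
  obtain ⟨k, hk⟩ : ∃ k : ℕ → ℕ, k = fun p => F.f p (n.factorization p) + F.f p (n.factorization p + 1) :=
    ⟨_, rfl⟩
  obtain ⟨r, hr⟩ : ∃ r : ℕ → ℝ, r = fun z =>
    rc (∏ p ∈ Nat.primesBelow z, p ^ k p) (Q z) := ⟨_, rfl⟩
  have hper : ∀ z, 0 < ∏ p ∈ Nat.primesBelow z, p ^ k p ∧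
      Per (∏ p ∈ Nat.primesBelow z, p ^ k p) (Q z) := by
    intro z
    obtain ⟨h1, h2, -⟩ := rc_prod (Nat.primesBelow z) (fun p hp => Nat.prime_of_mem_primesBelow hp)
      k (fun p => F.L p (n.factorization p)) (fun p _ => by rw [hk]; exact F.L_per p _)
    refine ⟨h1, ?_⟩
    rw [hQ]
    exact h2
  have hdens : ∀ z, Tendsto (fun X : ℝ => cnt X (Q z) / X ^ 5) atTop (𝓝 (4 * r z)) := by
    intro z
    rw [hr]
    exact dens_per (hper z).1 (hper z).2
  have hdensR : ∀ z, Tendsto (fun X : ℝ => cnt X (fun a b => R X a b ∧ Q z a b) / X ^ 5) atTop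
      (𝓝 (α * r z)) := by
    intro z
    rw [hr]
    exact hR _ _ (hper z).1 (hper z).2
  -- inclusions
  have inc1 : ∀ z a b, F.PM n a b → Q z a b := by
    rintro z a b ⟨h1, h2⟩
    rw [hQ]
    intro p hp
    have hpp := Nat.prime_of_mem_primesBelow hp
    exact (F.L_iff h1 hpp _).1 (by rw [h2])
  have inc2 : ∀ z, n + 5 ≤ z → ∀ a b, Q z a b → F.PM n a b ∨
      ((F.Z a b ∨ ∃ p : ℕ, p.Prime ∧ z ≤ p ∧ ¬ F.G p 0 a b) ∨
        (F.M a b ∧ ∃ p : ℕ, p.Prime ∧ z ≤ p ∧ p ∣ F.r a b)) := by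
    intro z hz a b hq
    rw [hQ] at hq
    by_cases h0 : F.Z a b ∨ ∃ p : ℕ, p.Prime ∧ z ≤ p ∧ ¬ F.G p 0 a b
    · right; left; exact h0
    · push Not at h0
      obtain ⟨h0, h3⟩ := h0
      have hMn : F.M a b := by
        refine (F.M_iff a b).2 ⟨h0, fun p hp => ?_⟩
        by_cases hpz : z ≤ p
        · exact h3 p hp hpz
        · exact F.anti' (hq p (Nat.mem_primesBelow.2 ⟨by omega, hp⟩)).1
      by_cases h4 : ∃ p : ℕ, p.Prime ∧ z ≤ p ∧ p ∣ F.r a b
      · right; right; exact ⟨hMn, h4⟩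
      · left
        push Not at h4
        refine ⟨hMn, ?_⟩
        apply Nat.eq_of_factorization_eq (F.r_pos a b hMn).ne' (by omega)
        intro p
        by_cases hp : p.Prime
        · by_cases hpz : z ≤ p
          · rw [Nat.factorization_eq_zero_of_not_dvd (h4 p hp hpz),
              Nat.factorization_eq_zero_of_not_dvd]
            intro h
            have := Nat.le_of_dvd (by omega) h
            omega
          · exact (F.L_iff hMn hp _).2 (hq p (Nat.mem_primesBelow.2 ⟨by omega, hp⟩))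
        · rw [Nat.factorization_eq_zero_of_not_prime _ hp,
            Nat.factorization_eq_zero_of_not_prime _ hp]
  have bad : ∀ z, n + 5 ≤ z → ∀ᶠ X : ℝ in atTop,
      cnt X (fun a b => (F.Z a b ∨ ∃ p : ℕ, p.Prime ∧ z ≤ p ∧ ¬ F.G p 0 a b) ∨
        (F.M a b ∧ ∃ p : ℕ, p.Prime ∧ z ≤ p ∧ p ∣ F.r a b)) ≤ (F.C + F.C) / z * X ^ 5 := by
    intro z hz
    filter_upwards [F.small z (by omega), F.big z (by omega)] with X hX hX'
    refine (cnt_or X _ _).trans ?_
    have e : (F.C + F.C : ℝ) / z * X ^ 5 = F.C / z * X ^ 5 + F.C / z * X ^ 5 := by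
      ring
    rw [e]
    exact add_le_add hX hX'
  have hη : Tendsto (fun z : ℕ => (F.C + F.C : ℝ) / z) atTop (𝓝 0) :=
    tendsto_const_div_atTop_nhds_zero_nat _
  -- the limit of the densities
  obtain ⟨D', hD1, hD2⟩ := approx (F.PM n) Q _ _ hdens hη (by
    filter_upwards [eventually_ge_atTop (n + 5)] with z hz
    filter_upwards [bad z hz] with X hX
    have h1 : cnt X (F.PM n) ≤ cnt X (Q z) := cnt_mono X (inc1 z)
    have h2 := (cnt_mono X (inc2 z hz)).trans (cnt_or X (F.PM n)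
      (fun a b => (F.Z a b ∨ ∃ p : ℕ, p.Prime ∧ z ≤ p ∧ ¬ F.G p 0 a b) ∨
        (F.M a b ∧ ∃ p : ℕ, p.Prime ∧ z ≤ p ∧ p ∣ F.r a b)))
    rw [abs_sub_comm, abs_of_nonneg (by linarith)]
    linarith)
  have hDD : D' = 4 * D := tendsto_nhds_unique hD1 hD
  rw [hDD] at hD2
  have hrD : Tendsto (fun z => α * r z) atTop (𝓝 (α * D)) := by
    have h1 : Tendsto (fun z => α * (1 / 4 * (4 * r z))) atTop (𝓝 (α * (1 / 4 * (4 * D)))) :=
      (hD2.const_mul _).const_mul _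
    have e1 : (fun z => α * (1 / 4 * (4 * r z))) = fun z => α * r z := by
      funext z
      ring
    have e2 : α * (1 / 4 * (4 * D)) = α * D := by ring
    rw [e1, e2] at h1
    exact h1
  refine lim_of_approx _ (fun z X => cnt X (fun a b => R X a b ∧ Q z a b) / X ^ 5) _ _ _ hdensR hη hrD ?_
  filter_upwards [eventually_ge_atTop (n + 5)] with z hz
  filter_upwards [bad z hz, eventually_gt_atTop (0 : ℝ)] with X hX hX0
  have hX5 : 0 < X ^ 5 := by positivity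
  have h1 : cnt X (fun a b => R X a b ∧ F.PM n a b) ≤ cnt X (fun a b => R X a b ∧ Q z a b) :=
    cnt_mono X fun a b h => ⟨h.1, inc1 z a b h.2⟩
  have h2 : cnt X (fun a b => R X a b ∧ Q z a b) ≤ cnt X (fun a b => R X a b ∧ F.PM n a b) +
      cnt X (fun a b => (F.Z a b ∨ ∃ p : ℕ, p.Prime ∧ z ≤ p ∧ ¬ F.G p 0 a b) ∨
        (F.M a b ∧ ∃ p : ℕ, p.Prime ∧ z ≤ p ∧ p ∣ F.r a b)) := by
    refine le_trans ?_ (cnt_or X _ _)
    apply cnt_mono
    rintro a b ⟨h3, h4⟩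
    rcases inc2 z hz a b h4 with h5 | h5
    · left; exact ⟨h3, h5⟩
    · right; exact h5
  rw [← sub_div, abs_div, abs_of_pos hX5, div_le_iff₀ hX5, abs_sub_comm, abs_of_nonneg (by linarith)]
  linarith

end Pool.Agent.U103.LC
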